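import Pool.Agent.Work.MP_327467_gt.Space

/-!
A `T₀` space `X` and a surjective complete homomorphism from the lattice of open sets of `X` onto a
nontrivial complete lattice without any meet-prime element; such a lattice is not isomorphic to the
lattice of open sets of a topological space.
-/

set_option autoImplicit false

namespace Pool.Agent.Results.MP_327467_gt.PointlessImage

open Pool.Agent.Work.MP_327467_gt

universe u

theorem result :
    ∃ (X : Type) (_ : TopologicalSpace X) (L : Type) (_ : CompleteLattice L)
      (φ : CompleteLatticeHom (TopologicalSpace.Opens X) L),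
      T0Space X ∧ Function.Surjective φ ∧ Nontrivial L ∧ (∀ p : L, ¬ InfPrime p) ∧
        ∀ (Y : Type u) [TopologicalSpace Y], IsEmpty (L ≃o TopologicalSpace.Opens Y) :=
  ⟨Node, inferInstance, Q, inferInstance, Phi, inferInstance, Phi_surj,
    ⟨⟨⊤, ⊥, top_ne_bot_Q⟩⟩, not_infPrime, fun _ _ => isEmpty_iso top_ne_bot_Q not_infPrime⟩

end Pool.Agent.Results.MP_327467_gt.PointlessImage
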